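import Mathlib

namespace Pool.Agent.Work.MP_96dc1b_co

/-- `G` has a tree decomposition all of whose bags have at most `w + 1` vertices: a finite tree
`TT` with bags `B x` such that, for each vertex `v`, the nodes whose bag contains `v` induce a
connected (in particular nonempty) subgraph of `TT`, and each edge lies in some bag. -/
def HasTreeDecomp {V : Type} (G : SimpleGraph V) (w : ℕ) : Prop :=
  ∃ (T : Type) (_ : Fintype T) (TT : SimpleGraph T) (B : T → Finset V),
    TT.IsTree ∧
    (∀ v : V, (TT.induce {x | v ∈ B x}).Connected) ∧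
    (∀ u v : V, G.Adj u v → ∃ x, u ∈ B x ∧ v ∈ B x) ∧
    ∀ x, (B x).card ≤ w + 1

/-- The treewidth of `G`: the least width of a tree decomposition. -/
noncomputable def treewidth {V : Type} (G : SimpleGraph V) : ℕ :=
  sInf {w | HasTreeDecomp G w}

/-- `φ` is an `r`-dynamic colouring of `G` with `k` colours. -/
def IsDynamic {V : Type} (G : SimpleGraph V) (r k : ℕ) (φ : V → Fin k) : Prop :=
  (∀ u v : V, G.Adj u v → φ u ≠ φ v) ∧
    ∀ v : V, min r (G.neighborSet v).ncard ≤ (φ '' G.neighborSet v).ncard

/-- The `r`-dynamic chromatic number of `G`. -/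
noncomputable def chiDyn {V : Type} (G : SimpleGraph V) (r : ℕ) : ℕ :=
  sInf {k | ∃ φ : V → Fin k, IsDynamic G r k φ}

end Pool.Agent.Work.MP_96dc1b_co
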