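import Mathlib
import Pool.Agent.Work.MP_96dc1b_co.Defs

-- merged part: Pool.Agent.Work.MP_96dc1b_co.Main
section
namespace Pool.Agent.Work.MP_96dc1b_co

open Finset

/-- Hubs are pairs `(a, b)`, leaves are pairs `(c, i)`; a hub is joined to a leaf if
`c = a` or `c = b`. -/
def hubGraph (n m : ℕ) : SimpleGraph ((Fin n × Fin n) ⊕ (Fin n × Fin m)) where
  Adj
    | .inl h, .inr l => l.1 = h.1 ∨ l.1 = h.2
    | .inr l, .inl h => l.1 = h.1 ∨ l.1 = h.2
    | _, _ => False
  symm := ⟨by rintro (x | x) (y | y) h <;> simpa using h⟩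
  loopless := ⟨by rintro (x | x) h <;> simp at h⟩

theorem treewidth_le (n m : ℕ) (hn : 0 < n) (hm : 0 < m) : treewidth (hubGraph n m) ≤ n * n := by
  classical
  apply Nat.sInf_le
  refine ⟨Fin n × Fin m, inferInstance, SimpleGraph.starGraph (⟨0, hn⟩, ⟨0, hm⟩),
    fun l => insert (Sum.inr l) (univ.map Function.Embedding.inl),
    SimpleGraph.isTree_starGraph _, ?_, ?_, ?_⟩
  · rintro (h | l)
    · have : {x : Fin n × Fin m | (Sum.inl h : (Fin n × Fin n) ⊕ (Fin n × Fin m)) ∈
          insert (Sum.inr x) (univ.map Function.Embedding.inl)} = Set.univ := by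
        ext x; simp
      rw [this]
      exact (SimpleGraph.induceUnivIso _).connected_iff.2 (SimpleGraph.connected_starGraph _)
    · have : {x : Fin n × Fin m | (Sum.inr l : (Fin n × Fin n) ⊕ (Fin n × Fin m)) ∈
          insert (Sum.inr x) (univ.map Function.Embedding.inl)} = {l} := by
        ext x; simp [eq_comm]
      rw [this]
      haveI : Nonempty ({l} : Set (Fin n × Fin m)) := ⟨⟨l, rfl⟩⟩
      exact SimpleGraph.Connected.of_subsingleton
  · rintro (x | x) (y | y) h
    · exact absurd h (by simp [hubGraph])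
    · exact ⟨y, by simp, by simp⟩
    · exact ⟨x, by simp, by simp⟩
    · exact absurd h (by simp [hubGraph])
  · intro x
    refine (card_insert_le _ _).trans ?_
    simp

theorem exists_dynamic {V : Type} [Fintype V] (G : SimpleGraph V) (r : ℕ) :
    ∃ φ : V → Fin (Fintype.card V), IsDynamic G r _ φ := by
  refine ⟨Fintype.equivFin V, fun u v h => (Fintype.equivFin V).injective.ne h.ne, fun v => ?_⟩
  rw [Set.ncard_image_of_injective _ (Fintype.equivFin V).injective]
  exact min_le_right _ _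

theorem hub_degree_le (n m : ℕ) (h : Fin n × Fin n) :
    ((hubGraph n m).neighborSet (.inl h)).ncard ≤ 2 * m := by
  classical
  have hsub : (hubGraph n m).neighborSet (.inl h) ⊆
      ((univ.image fun i : Fin m => (Sum.inr (h.1, i) : (Fin n × Fin n) ⊕ (Fin n × Fin m))) ∪
        (univ.image fun i : Fin m => (Sum.inr (h.2, i) : (Fin n × Fin n) ⊕ (Fin n × Fin m))) :
          Finset _) := by
    rintro (y | y) hy
    · exact absurd hy (by simp [hubGraph])
    · have hy' : y.1 = h.1 ∨ y.1 = h.2 := hy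
      rcases hy' with e | e
      · exact mem_coe.2 (mem_union_left _ (mem_image.2 ⟨y.2, mem_univ _, by rw [← e]⟩))
      · exact mem_coe.2 (mem_union_right _ (mem_image.2 ⟨y.2, mem_univ _, by rw [← e]⟩))
  refine (Set.ncard_le_ncard hsub (Finset.finite_toSet _)).trans ?_
  rw [Set.ncard_coe_finset]
  refine (card_union_le _ _).trans ?_
  have h1 := card_image_le (s := (univ : Finset (Fin m)))
    (f := fun i : Fin m => (Sum.inr (h.1, i) : (Fin n × Fin n) ⊕ (Fin n × Fin m)))
  have h2 := card_image_le (s := (univ : Finset (Fin m)))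
    (f := fun i : Fin m => (Sum.inr (h.2, i) : (Fin n × Fin n) ⊕ (Fin n × Fin m)))
  simp only [card_univ, Fintype.card_fin] at h1 h2
  omega

theorem le_chiDyn (n m : ℕ) : n * m ≤ chiDyn (hubGraph n m) (2 * m) := by
  obtain ⟨φ, hφ⟩ := Nat.sInf_mem (s := {k | ∃ φ : (Fin n × Fin n) ⊕ (Fin n × Fin m) → Fin k,
    IsDynamic (hubGraph n m) (2 * m) k φ}) ⟨_, exists_dynamic _ _⟩
  have hinj : Function.Injective fun l : Fin n × Fin m => φ (.inr l) := by
    intro x y hxy
    have h1 := hφ.2 (.inl (x.1, y.1))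
    rw [min_eq_right (hub_degree_le n m _)] at h1
    have h2 : Set.InjOn φ ((hubGraph n m).neighborSet (.inl (x.1, y.1))) :=
      Set.injOn_of_ncard_image_eq (le_antisymm (Set.ncard_image_le (Set.toFinite _)) h1)
        (Set.toFinite _)
    exact Sum.inr_injective (h2 (show x.1 = x.1 ∨ x.1 = y.1 from Or.inl rfl)
      (show y.1 = x.1 ∨ y.1 = y.1 from Or.inr rfl) hxy)
  have := Fintype.card_le_of_injective _ hinj
  simpa [chiDyn] using this

end Pool.Agent.Work.MP_96dc1b_co
end

-- merged part: Pool.Agent.Work.MP_96dc1b_co.Upper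
section
namespace Pool.Agent.Work.MP_96dc1b_co

open Finset

section tree

variable {T : Type} {TT : SimpleGraph T}

/-- `x` and `y` are joined by a walk avoiding `t`. -/
def Av (TT : SimpleGraph T) (t x y : T) : Prop := ∃ p : TT.Walk x y, t ∉ p.support

lemma Av.symm {t x y : T} (h : Av TT t x y) : Av TT t y x := by
  obtain ⟨p, hp⟩ := h
  exact ⟨p.reverse, by simpa using hp⟩

lemma Av.trans {t x y z : T} (h : Av TT t x y) (h' : Av TT t y z) : Av TT t x z := by
  obtain ⟨p, hp⟩ := h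
  obtain ⟨q, hq⟩ := h'
  refine ⟨p.append q, fun hm => ?_⟩
  rcases (SimpleGraph.Walk.mem_support_append_iff p q).1 hm with h | h
  · exact hp h
  · exact hq h

lemma Av.ne_right {t x y : T} (h : Av TT t x y) : y ≠ t := by
  obtain ⟨p, hp⟩ := h
  rintro rfl
  exact hp p.end_mem_support

lemma Av.refl {t x : T} (h : x ≠ t) : Av TT t x x :=
  ⟨SimpleGraph.Walk.nil, by simpa using h.symm⟩

lemma av_of_not_av (hT : TT.Connected) {t t' z : T} (htt : t' ≠ t) (h : ¬ Av TT t' z t) :
    Av TT t z t' := by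
  classical
  obtain ⟨p, hp⟩ := hT.exists_isPath z t'
  by_cases ht : t ∈ p.support
  · exact absurd ⟨p.takeUntil t ht,
      SimpleGraph.Walk.endpoint_notMem_support_takeUntil hp ht htt⟩ h
  · exact ⟨p, ht⟩

lemma exists_adj_av (hT : TT.Connected) {t y : T} (h : y ≠ t) :
    ∃ t', TT.Adj t t' ∧ Av TT t t' y := by
  obtain ⟨p, hp⟩ := hT.exists_isPath t y
  cases p with
  | nil => exact absurd rfl h
  | cons ha q =>
    rw [SimpleGraph.Walk.cons_isPath_iff] at hp
    exact ⟨_, ha, q, hp.2⟩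

lemma not_av_av (hT : TT.IsAcyclic) {t t' x : T} (ha : TT.Adj t t') (h1 : Av TT t' x t)
    (h2 : Av TT t x t') : False := by
  obtain ⟨p, hp⟩ := h1
  obtain ⟨q, hq⟩ := h2
  have hb : TT.IsBridge s(t, t') := SimpleGraph.isAcyclic_iff_forall_isBridge.1 hT ha
  have := SimpleGraph.isBridge_iff_forall_walk_mem_edges.1 hb (p.reverse.append q)
  rw [SimpleGraph.Walk.edges_append, List.mem_append] at this
  rcases this with h | h
  · exact hp (by simpa using SimpleGraph.Walk.snd_mem_support_of_mem_edges _ h)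
  · exact hq (SimpleGraph.Walk.fst_mem_support_of_mem_edges _ h)

lemma av_of_connected {P : Set T} (hP : (TT.induce P).Connected) {t x y : T} (hx : x ∈ P)
    (hy : y ∈ P) (ht : t ∉ P) : Av TT t x y := by
  obtain ⟨p⟩ := hP.preconnected ⟨x, hx⟩ ⟨y, hy⟩
  refine ⟨p.map (SimpleGraph.Embedding.induce P).toHom, fun hm => ?_⟩
  have h2 := SimpleGraph.Walk.support_map (SimpleGraph.Embedding.induce P).toHom p
  obtain ⟨w, -, rfl⟩ := List.mem_map.1 (h2 ▸ hm)
  exact ht w.2

end tree

section piece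

variable {V : Type} [Fintype V] [DecidableEq V] {G : SimpleGraph V}
  {T : Type} {TT : SimpleGraph T} {B : T → Finset V}

open Classical in
/-- The vertices living only in the branch at `t` that contains `y`. -/
noncomputable def br (TT : SimpleGraph T) (B : T → Finset V) (t y : T) : Finset V :=
  univ.filter fun v => ∀ x, v ∈ B x → Av TT t y x

omit [DecidableEq V] in
lemma mem_br {t y : T} {v : V} : v ∈ br TT B t y ↔ ∀ x, v ∈ B x → Av TT t y x := by
  simp [br]

/-- A set with between `m` and `M` elements of `S`, cut off by at most `k + 1` vertices. -/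
def Piece (G : SimpleGraph V) (S : Finset V) (k m M : ℕ) : Prop :=
  ∃ X A : Finset V, X.card ≤ k + 1 ∧ (∀ a ∈ A, ∀ b, G.Adj a b → b ∈ A ∨ b ∈ X) ∧
    m ≤ (A ∩ S).card ∧ (A ∩ S).card ≤ M

variable (hc : ∀ v : V, (TT.induce {x | v ∈ B x}).Connected)
  (he : ∀ u v : V, G.Adj u v → ∃ x, u ∈ B x ∧ v ∈ B x)
include hc

omit [DecidableEq V] in
lemma mem_br_self {t x : T} {v : V} (hv : v ∉ B t) (hx : v ∈ B x) : v ∈ br TT B t x :=
  mem_br.2 fun _ hy => av_of_connected (hc v) hx hy hv

include he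

omit [DecidableEq V] in
lemma br_closed {t y : T} {a b : V} (ha : a ∈ br TT B t y) (hab : G.Adj a b) :
    b ∈ br TT B t y ∨ b ∈ B t := by
  by_cases hb : b ∈ B t
  · exact Or.inr hb
  · obtain ⟨x, hax, hbx⟩ := he a b hab
    exact Or.inl (mem_br.2 fun x' hx' =>
      (mem_br.1 ha x hax).trans (av_of_connected (hc b) hbx hx' hb))

lemma piece_at {k m : ℕ} (hm : 1 ≤ m) {S U : Finset V} (t : T) (hB : (B t).card ≤ k + 1)
    (Z : Finset T) (hsmall : ∀ z ∈ Z, (br TT B t z ∩ S).card < m + k + 1) (hU : U ⊆ S)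
    (hUc : m + k + 1 ≤ U.card) (hcov : ∀ v ∈ U, v ∈ B t ∨ ∃ z ∈ Z, v ∈ br TT B t z) :
    Piece G S k m (2 * m + k) := by
  classical
  let F : Finset T → Finset V := fun Y => Y.biUnion (br TT B t) ∩ S
  have hZ : m ≤ (F Z).card := by
    have h1 : U ⊆ B t ∪ F Z := by
      intro v hv
      rcases hcov v hv with h | ⟨z, hz, h⟩
      · exact mem_union_left _ h
      · exact mem_union_right _ (mem_inter.2 ⟨mem_biUnion.2 ⟨z, hz, h⟩, hU hv⟩)
    have := (card_le_card h1).trans (card_union_le _ _)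
    omega
  obtain ⟨Y, hY, hmin⟩ := exists_min_image (Z.powerset.filter fun Y => m ≤ (F Y).card)
    Finset.card ⟨Z, by simp [hZ]⟩
  rw [mem_filter, mem_powerset] at hY
  obtain ⟨z, hz⟩ : Y.Nonempty := by
    rw [nonempty_iff_ne_empty]
    rintro rfl
    have := hY.2
    simp [F] at this
    omega
  have hlt : (F (Y.erase z)).card < m := by
    by_contra hge
    have := hmin (Y.erase z) (mem_filter.2
      ⟨mem_powerset.2 ((erase_subset _ _).trans hY.1), not_lt.1 hge⟩)
    have := card_erase_lt_of_mem hz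
    omega
  have hsub : F Y ⊆ F (Y.erase z) ∪ (br TT B t z ∩ S) := by
    intro v hv
    obtain ⟨h1, h2⟩ := mem_inter.1 hv
    obtain ⟨w, hw, h3⟩ := mem_biUnion.1 h1
    by_cases hwz : w = z
    · exact mem_union_right _ (mem_inter.2 ⟨hwz ▸ h3, h2⟩)
    · exact mem_union_left _ (mem_inter.2 ⟨mem_biUnion.2 ⟨w, mem_erase.2 ⟨hwz, hw⟩, h3⟩, h2⟩)
  have hle := (card_le_card hsub).trans (card_union_le _ _)
  have := hsmall z (hY.1 hz)
  refine ⟨B t, Y.biUnion (br TT B t), hB, fun a ha b hab => ?_, hY.2, ?_⟩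
  · obtain ⟨w, hw, h3⟩ := mem_biUnion.1 ha
    rcases br_closed hc he h3 hab with h | h
    · exact Or.inl (mem_biUnion.2 ⟨w, hw, h⟩)
    · exact Or.inr h
  · change (F Y).card ≤ _
    omega

lemma exists_piece [Fintype T] (hT : TT.IsTree) {k m : ℕ} (hB : ∀ x, (B x).card ≤ k + 1)
    (hm : 1 ≤ m) {S : Finset V} (hS : m + k + 1 ≤ S.card) : Piece G S k m (2 * m + k) := by
  classical
  let comp : T × T → ℕ := fun q => (univ.filter fun x => Av TT q.1 q.2 x).card
  let P : Finset (T × T) :=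
    univ.filter fun q => q.2 ≠ q.1 ∧ m + k + 1 ≤ (br TT B q.1 q.2 ∩ S).card
  rcases P.eq_empty_or_nonempty with hP | hP
  · obtain ⟨t⟩ := hT.connected.nonempty
    refine piece_at hc he hm t (hB t) (univ.erase t) (fun z hz => ?_) Subset.rfl hS fun v _ => ?_
    · by_contra hge
      have : (t, z) ∈ P := mem_filter.2 ⟨mem_univ _, (mem_erase.1 hz).1, not_lt.1 hge⟩
      rw [hP] at this
      exact notMem_empty _ this
    · by_cases hv : v ∈ B t
      · exact Or.inl hv
      · obtain ⟨⟨x, hx⟩⟩ := (hc v).nonempty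
        refine Or.inr ⟨x, mem_erase.2 ⟨?_, mem_univ _⟩, mem_br_self hc hv hx⟩
        rintro rfl
        exact hv hx
  · obtain ⟨⟨t, y⟩, hq, hmin⟩ := exists_min_image P comp hP
    obtain ⟨-, hyt, hbig⟩ := mem_filter.1 hq
    obtain ⟨t', ha, ht'⟩ := exists_adj_av hT.connected hyt
    refine piece_at hc he hm t' (hB t') (univ.filter fun z => z ≠ t' ∧ ¬ Av TT t' z t)
      (fun z hz => ?_) inter_subset_right hbig fun v hv => ?_
    · obtain ⟨-, hz1, hz2⟩ := mem_filter.1 hz
      by_contra hge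
      have h1 := hmin (t', z) (mem_filter.2 ⟨mem_univ _, hz1, not_lt.1 hge⟩)
      refine absurd h1 (not_le.2 (card_lt_card ⟨fun x hx => ?_, fun h => ?_⟩))
      · have hx' : Av TT t' z x := (mem_filter.1 hx).2
        have h3 : ¬ Av TT t' x t := fun h => hz2 (hx'.trans h)
        exact mem_filter.2 ⟨mem_univ _,
          ((av_of_not_av hT.connected ha.ne' h3).trans ht').symm⟩
      · have : t' ∈ univ.filter fun x => Av TT t' z x := h (mem_filter.2 ⟨mem_univ _, ht'.symm⟩)
        exact (mem_filter.1 this).2.ne_right rfl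
    · by_cases hv' : v ∈ B t'
      · exact Or.inl hv'
      · obtain ⟨⟨x, hx⟩⟩ := (hc v).nonempty
        refine Or.inr ⟨x, mem_filter.2 ⟨mem_univ _, ?_, fun h => ?_⟩, mem_br_self hc hv' hx⟩
        · rintro rfl
          exact hv' hx
        · have h1 : Av TT t y x := mem_br.1 (mem_inter.1 hv).1 x hx
          exact not_av_av hT.isAcyclic ha h (ht'.trans h1).symm

end piece

section colour

variable {V : Type} [DecidableEq V]

/-- Greedy colouring of a degenerate symmetric relation. -/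
lemma exists_colouring (H : V → V → Prop) [DecidableRel H] (hs : ∀ a b, H a b → H b a) (D : ℕ)
    (hD : ∀ S : Finset V, S.Nonempty → ∃ a ∈ S, ((S.erase a).filter (H a)).card ≤ D)
    (S : Finset V) :
    ∃ φ : V → Fin (D + 1), ∀ a ∈ S, ∀ b ∈ S, a ≠ b → H a b → φ a ≠ φ b := by
  induction S using Finset.strongInduction with
  | H S ih =>
    rcases S.eq_empty_or_nonempty with rfl | hS
    · exact ⟨fun _ => 0, by simp⟩
    obtain ⟨a, ha, hdeg⟩ := hD S hS
    obtain ⟨φ, hφ⟩ := ih (S.erase a) (erase_ssubset ha)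
    obtain ⟨c, hc⟩ : ∃ c : Fin (D + 1), c ∉ ((S.erase a).filter (H a)).image φ := by
      by_contra hall
      push Not at hall
      have h1 : (univ : Finset (Fin (D + 1))) ⊆ ((S.erase a).filter (H a)).image φ :=
        fun c _ => hall c
      have h2 := (card_le_card h1).trans card_image_le
      simp only [card_univ, Fintype.card_fin] at h2
      omega
    have key : ∀ b ∈ S, b ≠ a → H a b → c ≠ φ b := fun b hb hba hab h =>
      hc (mem_image.2 ⟨b, mem_filter.2 ⟨mem_erase.2 ⟨hba, hb⟩, hab⟩, h.symm⟩)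
    refine ⟨Function.update φ a c, fun x hx y hy hxy hH => ?_⟩
    by_cases hxa : x = a
    · subst hxa
      rw [Function.update_self, Function.update_of_ne hxy.symm]
      exact key y hy hxy.symm hH
    · by_cases hya : y = a
      · subst hya
        rw [Function.update_self, Function.update_of_ne hxa]
        exact (key x hx hxa (hs _ _ hH)).symm
      · rw [Function.update_of_ne hxa, Function.update_of_ne hya]
        exact hφ x (mem_erase.2 ⟨hxa, hx⟩) y (mem_erase.2 ⟨hya, hy⟩) hxy hH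

/-- In a piece some vertex has few conflicts. -/
lemma low_degree {G : SimpleGraph V} (N : V → Finset V) (hN : ∀ x, ∀ a ∈ N x, G.Adj x a)
    {r k m M : ℕ} (hr : ∀ x, (N x).card ≤ r) (hm : 1 ≤ m) (hmr : (k + 1) * r ^ 2 ≤ m * m)
    {S : Finset V} (hP : Piece G S k m M) (H : V → V → Prop) [DecidableRel H]
    (hH : ∀ a b, H a b → G.Adj a b ∨ ∃ x, a ∈ N x ∧ b ∈ N x) :
    ∃ a ∈ S, ((S.erase a).filter (H a)).card ≤ M + (k + 1) + m := by
  obtain ⟨X, A, hX, hcl, hlo, hhi⟩ := hP
  let w : V → ℕ := fun a => ∑ x ∈ X, if a ∈ N x then (N x).card else 0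
  have hsum : ∑ a ∈ A ∩ S, w a ≤ ∑ _a ∈ A ∩ S, m := by
    have h1 : ∑ a ∈ A ∩ S, w a ≤ ∑ _x ∈ X, r ^ 2 := by
      simp only [w]
      rw [sum_comm]
      refine sum_le_sum fun x _ => ?_
      rw [← sum_filter, sum_const, smul_eq_mul, sq]
      refine Nat.mul_le_mul ((card_le_card fun a ha => (mem_filter.1 ha).2).trans (hr x)) (hr x)
    rw [sum_const, smul_eq_mul] at h1
    rw [sum_const, smul_eq_mul]
    calc _ ≤ X.card * r ^ 2 := h1
      _ ≤ (k + 1) * r ^ 2 := Nat.mul_le_mul_right _ hX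
      _ ≤ m * m := hmr
      _ ≤ _ := Nat.mul_le_mul_right _ hlo
  obtain ⟨a, ha, hwa⟩ := exists_le_of_sum_le (card_pos.1 (by omega)) hsum
  refine ⟨a, (mem_inter.1 ha).2, ?_⟩
  have hsub : (S.erase a).filter (H a) ⊆
      (A ∩ S ∪ X) ∪ (X.filter fun x => a ∈ N x).biUnion N := by
    intro b hb
    obtain ⟨hb1, hb2⟩ := mem_filter.1 hb
    have hbS := (mem_erase.1 hb1).2
    have haA := (mem_inter.1 ha).1
    have hin : b ∈ A ∨ b ∈ X → b ∈ (A ∩ S ∪ X) ∪ (X.filter fun x => a ∈ N x).biUnion N := by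
      rintro (h | h)
      · exact mem_union_left _ (mem_union_left _ (mem_inter.2 ⟨h, hbS⟩))
      · exact mem_union_left _ (mem_union_right _ h)
    rcases hH a b hb2 with h | ⟨x, hx1, hx2⟩
    · exact hin (hcl a haA b h)
    · rcases hcl a haA x (hN x a hx1).symm with h | h
      · exact hin (hcl x h b (hN x b hx2))
      · exact mem_union_right _ (mem_biUnion.2 ⟨x, mem_filter.2 ⟨h, hx1⟩, hx2⟩)
  have h1 := (card_le_card hsub).trans (card_union_le _ _)
  have h2 := card_union_le (A ∩ S) X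
  have h3 : ((X.filter fun x => a ∈ N x).biUnion N).card ≤ w a := by
    refine card_biUnion_le.trans ?_
    rw [sum_filter]
  omega

end colour

theorem hasTreeDecomp_treewidth {V : Type} [Fintype V] (G : SimpleGraph V) :
    HasTreeDecomp G (treewidth G) := by
  classical
  refine Nat.sInf_mem (s := {w | HasTreeDecomp G w}) ⟨Fintype.card V, Unit, inferInstance, ⊥,
    fun _ => univ, SimpleGraph.IsTree.of_subsingleton, fun v => ?_, fun u v _ => ⟨(), by simp⟩,
    fun _ => by simp⟩
  have : Nonempty {x : Unit | v ∈ (univ : Finset V)} := ⟨⟨(), by simp⟩⟩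
  exact SimpleGraph.Connected.of_subsingleton

theorem chiDyn_le {V : Type} [Fintype V] (G : SimpleGraph V) {k r m : ℕ} (hk : treewidth G ≤ k)
    (hm : 1 ≤ m) (hmr : (k + 1) * r ^ 2 ≤ m * m) : chiDyn G r ≤ 3 * m + 2 * k + 2 := by
  classical
  obtain ⟨T, _, TT, B, hT, hc, he, hB⟩ := hasTreeDecomp_treewidth G
  have hB' : ∀ x, (B x).card ≤ k + 1 := fun x => (hB x).trans (by omega)
  have hex : ∀ x : V, ∃ N ⊆ G.neighborFinset x, N.card = min r (G.neighborFinset x).card :=
    fun x => exists_subset_card_eq (min_le_right _ _)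
  choose N hN1 hN2 using hex
  have hN : ∀ x, ∀ a ∈ N x, G.Adj x a := fun x a ha => (G.mem_neighborFinset x a).1 (hN1 x ha)
  let H : V → V → Prop := fun a b => G.Adj a b ∨ ∃ x, a ∈ N x ∧ b ∈ N x
  have hs : ∀ a b, H a b → H b a := by
    rintro a b (h | ⟨x, h1, h2⟩)
    · exact Or.inl h.symm
    · exact Or.inr ⟨x, h2, h1⟩
  obtain ⟨φ, hφ⟩ := exists_colouring H hs (3 * m + 2 * k + 1) (fun S hS => by
    by_cases hbig : m + k + 1 ≤ S.card
    · obtain ⟨a, ha, h⟩ := low_degree N hN (r := r) (fun x => by rw [hN2]; exact min_le_left _ _)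
        hm hmr (exists_piece hc he hT hB' hm hbig) H fun _ _ h => h
      exact ⟨a, ha, by omega⟩
    · obtain ⟨a, ha⟩ := hS
      refine ⟨a, ha, ?_⟩
      have := (card_filter_le (S.erase a) (H a)).trans (card_erase_le (a := a))
      omega) univ
  refine Nat.sInf_le ⟨φ, fun u v h => hφ u (mem_univ _) v (mem_univ _) h.ne (Or.inl h), fun v => ?_⟩
  have h1 : (G.neighborSet v).ncard = (G.neighborFinset v).card := by
    rw [← Set.ncard_coe_finset, SimpleGraph.coe_neighborFinset]
  have h2 : Set.InjOn φ (N v : Set V) := fun a ha b hb hab => by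
    by_contra hne
    exact hφ a (mem_univ _) b (mem_univ _) hne (Or.inr ⟨v, ha, hb⟩) hab
  rw [h1, ← hN2, ← Set.ncard_coe_finset, ← h2.ncard_image]
  exact Set.ncard_le_ncard (Set.image_mono fun a ha => hN v a ha) (Set.toFinite _)

theorem chiDyn_mono {V : Type} [Fintype V] (G : SimpleGraph V) {r s : ℕ} (h : r ≤ s) :
    chiDyn G r ≤ chiDyn G s := by
  obtain ⟨φ, hφ⟩ := Nat.sInf_mem (s := {k | ∃ φ : V → Fin k, IsDynamic G s k φ})
    ⟨_, exists_dynamic _ _⟩
  exact Nat.sInf_le ⟨φ, hφ.1, fun v => (min_le_min_right _ h).trans (hφ.2 v)⟩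

theorem treewidth_top (k : ℕ) : treewidth (⊤ : SimpleGraph (Fin (k + 1))) ≤ k := by
  refine Nat.sInf_le ⟨Unit, inferInstance, ⊥,
    fun _ => univ, SimpleGraph.IsTree.of_subsingleton, fun v => ?_, fun u v _ => ⟨(), by simp⟩,
    fun _ => by simp⟩
  have : Nonempty {x : Unit | v ∈ (univ : Finset (Fin (k + 1)))} := ⟨⟨(), by simp⟩⟩
  exact SimpleGraph.Connected.of_subsingleton

theorem le_chiDyn_top (k r : ℕ) : k + 1 ≤ chiDyn (⊤ : SimpleGraph (Fin (k + 1))) r := by
  obtain ⟨φ, hφ⟩ := Nat.sInf_mem (s := {j | ∃ φ : Fin (k + 1) → Fin j,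
    IsDynamic (⊤ : SimpleGraph (Fin (k + 1))) r j φ}) ⟨_, exists_dynamic _ _⟩
  have hinj : Function.Injective φ := fun a b hab => by
    by_contra hne
    exact hφ.1 a b hne hab
  have := Fintype.card_le_of_injective _ hinj
  simpa [chiDyn] using this

end Pool.Agent.Work.MP_96dc1b_co
end
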